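import Pool.Agent.H608R5.KL.Stm

/-!
# Piece KA: an equilibrium with coercive Hessian form is a local minimum
-/

set_option autoImplicit false

namespace Pool.Agent.TH667.KL

open Pool.Agent.H608R5.KL Finset

private lemma pt (α d δ : ℝ) (h1 : |d| ≤ 1) (h2 : |d| ≤ δ) :
    (1 - Real.cos α) + (Real.sin α * d + Real.cos α * d ^ 2 / 2 - δ * d ^ 2) ≤
      1 - Real.cos (α + d) := by
  have hc := Real.cos_bound h1
  have hs := Real.sin_bound h1
  have h0 : 0 ≤ |d| := abs_nonneg d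
  have hd2 : |d| ^ 2 = d ^ 2 := sq_abs d
  have hd3 : |d| ^ 3 ≤ δ * d ^ 2 := by
    rw [← hd2, pow_succ, mul_comm]
    exact mul_le_mul_of_nonneg_right h2 (by positivity)
  have hd3n : 0 ≤ |d| ^ 3 := by positivity
  have hd4 : |d| ^ 4 ≤ |d| ^ 3 := pow_le_pow_of_le_one h0 h1 (by norm_num)
  have hd5 : |d| ^ 5 ≤ |d| ^ 3 := pow_le_pow_of_le_one h0 h1 (by norm_num)
  have hc1 : |Real.cos d - (1 - d ^ 2 / 2)| ≤ |d| ^ 3 / 16 := by
    refine hc.trans ?_
    nlinarith
  have hs1 : |Real.sin d - d| ≤ |d| ^ 3 / 4 := by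
    have e : Real.sin d - d = (Real.sin d - (d - d ^ 3 / 6)) + (- (d ^ 3 / 6)) := by ring
    rw [e]
    refine (abs_add_le _ _).trans ?_
    have : |-(d ^ 3 / 6)| = |d| ^ 3 / 6 := by
      rw [abs_neg, abs_div, abs_pow]; norm_num
    rw [this]
    linarith
  have h3 : |Real.cos α * (Real.cos d - (1 - d ^ 2 / 2))| ≤ |d| ^ 3 / 16 := by
    rw [abs_mul]
    exact (mul_le_of_le_one_left (abs_nonneg _) (Real.abs_cos_le_one α)).trans hc1
  have h4 : |Real.sin α * (Real.sin d - d)| ≤ |d| ^ 3 / 4 := by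
    rw [abs_mul]
    exact (mul_le_of_le_one_left (abs_nonneg _) (Real.abs_sin_le_one α)).trans hs1
  rw [Real.cos_add]
  have h5 := (abs_le.1 h3).2
  have h6 := (abs_le.1 h4).1
  nlinarith

theorem t_KA : S_KA := by
  intro U _ a t0 l hl hsym ha0 ha1 heq hH
  set N : ℝ := (Fintype.card U : ℝ) with hN
  have hN0 : 0 ≤ N := Nat.cast_nonneg _
  set δ : ℝ := min 1 (l / (8 * (N + 1))) with hδ
  have hδ0 : 0 < δ := lt_min one_pos (by positivity)
  have hδ1 : δ ≤ 1 := min_le_left _ _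
  have hδ2 : 4 * N * δ ≤ l / 2 := by
    have h1 : δ ≤ l / (8 * (N + 1)) := min_le_right _ _
    have h2 : 4 * N * δ ≤ 4 * N * (l / (8 * (N + 1))) :=
      mul_le_mul_of_nonneg_left h1 (by positivity)
    refine h2.trans ?_
    rw [show 4 * N * (l / (8 * (N + 1))) = (l / 2) * (N / (N + 1)) by field_simp; ring]
    exact mul_le_of_le_one_right (by positivity) (by rw [div_le_one (by positivity)]; linarith)
  have hev : ∀ᶠ t : U → ℝ in nhds t0, ∀ x y, |(t x - t0 x) - (t y - t0 y)| < δ := by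
    rw [Filter.eventually_all]
    intro x
    rw [Filter.eventually_all]
    intro y
    have hc : Continuous fun t : U → ℝ => |(t x - t0 x) - (t y - t0 y)| := by fun_prop
    refine hc.continuousAt.eventually_lt continuousAt_const ?_
    simpa using hδ0
  refine hev.mono fun t ht => ?_
  set f : U → ℝ := fun x => t x - t0 x with hf
  obtain ⟨c, hc⟩ := hH f
  have hpt : ∀ x y, a x y * (1 - Real.cos (t0 x - t0 y)) +
      (a x y * Real.sin (t0 x - t0 y) * (f x - f y) +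
        (1 / 2) * (a x y * Real.cos (t0 x - t0 y) * (f x - f y) ^ 2) - δ * (f x - f y) ^ 2) ≤
      a x y * (1 - Real.cos (t x - t y)) := by
    intro x y
    have h1 := pt (t0 x - t0 y) (f x - f y) δ ((ht x y).le.trans hδ1) (ht x y).le
    have h2 : t0 x - t0 y + (f x - f y) = t x - t y := by simp only [hf]; ring
    rw [h2] at h1
    have h3 := mul_le_mul_of_nonneg_left h1 (ha0 x y)
    have h4 : a x y * (δ * (f x - f y) ^ 2) ≤ δ * (f x - f y) ^ 2 :=
      mul_le_of_le_one_left (by positivity) (ha1 x y)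
    nlinarith
  have hlin : ∑ x, ∑ y, a x y * Real.sin (t0 x - t0 y) * (f x - f y) = 0 := by
    have e1 : ∑ x, ∑ y, a x y * Real.sin (t0 x - t0 y) * (f x - f y) =
        ∑ x, ∑ y, a x y * Real.sin (t0 x - t0 y) * f x -
          ∑ x, ∑ y, a x y * Real.sin (t0 x - t0 y) * f y := by
      rw [← Finset.sum_sub_distrib]
      refine Finset.sum_congr rfl fun x _ => ?_
      rw [← Finset.sum_sub_distrib]
      refine Finset.sum_congr rfl fun y _ => ?_
      ring
    have e2 : ∑ x, ∑ y, a x y * Real.sin (t0 x - t0 y) * f x = 0 := by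
      refine Finset.sum_eq_zero fun x _ => ?_
      rw [← Finset.sum_mul, heq x, zero_mul]
    have e3 : ∑ x, ∑ y, a x y * Real.sin (t0 x - t0 y) * f y = 0 := by
      rw [Finset.sum_comm]
      refine Finset.sum_eq_zero fun y _ => ?_
      rw [← Finset.sum_mul]
      have : ∑ x, a x y * Real.sin (t0 x - t0 y) = - ∑ x, a y x * Real.sin (t0 y - t0 x) := by
        rw [← Finset.sum_neg_distrib]
        refine Finset.sum_congr rfl fun x _ => ?_
        rw [hsym x y, ← neg_sub (t0 y) (t0 x), Real.sin_neg]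
        ring
      rw [this, heq y]
      simp
    rw [e1, e2, e3, sub_zero]
  have hsq : ∑ x, ∑ y, (f x - f y) ^ 2 ≤ 4 * N * ∑ x, (f x - c) ^ 2 := by
    have e1 : ∑ x, ∑ y, (f x - f y) ^ 2 ≤ ∑ x, ∑ y, (2 * (f x - c) ^ 2 + 2 * (f y - c) ^ 2) := by
      refine Finset.sum_le_sum fun x _ => Finset.sum_le_sum fun y _ => ?_
      nlinarith [sq_nonneg ((f x - c) + (f y - c))]
    refine e1.trans (le_of_eq ?_)
    simp only [Finset.sum_add_distrib, Finset.sum_const, Finset.card_univ, nsmul_eq_mul,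
      ← Finset.mul_sum]
    rw [← hN]
    ring
  have hsum : ∑ x, ∑ y, a x y * (1 - Real.cos (t0 x - t0 y)) +
      (∑ x, ∑ y, a x y * Real.sin (t0 x - t0 y) * (f x - f y) +
        (1 / 2) * ∑ x, ∑ y, a x y * Real.cos (t0 x - t0 y) * (f x - f y) ^ 2 -
        δ * ∑ x, ∑ y, (f x - f y) ^ 2) ≤ ∑ x, ∑ y, a x y * (1 - Real.cos (t x - t y)) := by
    have := Finset.sum_le_sum fun x (_ : x ∈ (Finset.univ : Finset U)) =>
      Finset.sum_le_sum fun y (_ : y ∈ (Finset.univ : Finset U)) => hpt x y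
    simp only [Finset.sum_add_distrib, Finset.sum_sub_distrib, ← Finset.mul_sum] at this
    exact this
  rw [hlin] at hsum
  have hS : 0 ≤ ∑ x, (f x - c) ^ 2 := Finset.sum_nonneg fun x _ => sq_nonneg _
  have h7 : δ * ∑ x, ∑ y, (f x - f y) ^ 2 ≤ (l / 2) * ∑ x, (f x - c) ^ 2 := by
    calc δ * ∑ x, ∑ y, (f x - f y) ^ 2 ≤ δ * (4 * N * ∑ x, (f x - c) ^ 2) :=
          mul_le_mul_of_nonneg_left hsq hδ0.le
      _ = (4 * N * δ) * ∑ x, (f x - c) ^ 2 := by ring
      _ ≤ (l / 2) * ∑ x, (f x - c) ^ 2 := mul_le_mul_of_nonneg_right hδ2 hS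
  change ∑ x, ∑ y, a x y * (1 - Real.cos (t0 x - t0 y)) ≤
    ∑ x, ∑ y, a x y * (1 - Real.cos (t x - t y))
  linarith

end Pool.Agent.TH667.KL
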